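import Pool.Agent.H19.LG.MDefs

/-!
# CUT in characteristic `≠ 2`: the regular module of a finite level

`reg K β`: the functions on the group `P` of a `BG`, with `(R v f) p = f (p * g v)` and the bits as signs; its twisted
Betti numbers are the untwisted Betti numbers of the product with `P`.
-/

set_option autoImplicit false
set_option linter.unusedSectionVars false

open Finset Matrix

namespace Pool.Agent.H3.CUT0

open Pool.Agent.H19.Cub Pool.Agent.H19.LG Pool.Agent.H4.Singer Pool.Agent.H85.Fold
  Pool.Agent.H85.Fold2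

section

variable {V : Type} [DecidableEq V] {G : SimpleGraph V} {P : Type} [Group P] [Fintype P]
  [DecidableEq P] (K : Type) [Field K] (β : BG G P)

/-- the matrices of the involutions -/
def regR (v : V) : Matrix P P K := Matrix.of fun p q => if q = p * β.g v then 1 else 0

/-- the matrices of the bits -/
def regB (v : V) : Matrix P P K := Matrix.diagonal fun p => (Pool.Agent.H19.LG.sgn (β.b p v) : K)

theorem mulVec_regR (v : V) (f : P → K) (p : P) : (regR K β v).mulVec f p = f (p * β.g v) := by
  unfold regR Matrix.mulVec dotProduct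
  simp only [Matrix.of_apply, ite_mul, one_mul, zero_mul, sum_ite_eq', mem_univ, if_true]

theorem mulVec_regB (v : V) (f : P → K) (p : P) :
    (regB K β v).mulVec f p = (Pool.Agent.H19.LG.sgn (β.b p v) : K) * f p := by
  unfold regB
  rw [Matrix.mulVec_diagonal]

private theorem sgn_not (b : Bool) : Pool.Agent.H19.LG.sgn (!b) = -Pool.Agent.H19.LG.sgn b := by
  cases b <;> simp [Pool.Agent.H19.LG.sgn]

private theorem sgn_mul_self (b : Bool) :
    Pool.Agent.H19.LG.sgn b * Pool.Agent.H19.LG.sgn b = 1 := by
  cases b <;> simp [Pool.Agent.H19.LG.sgn]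

private theorem mat_ext {M N : Matrix P P K} (h : ∀ f : P → K, M.mulVec f = N.mulVec f) :
    M = N :=
  Matrix.ext_of_mulVec_single fun _ => h _

/-- the regular module -/
def reg : MB G K P where
  R := regR K β
  B := regB K β
  R_sq v := by
    refine mat_ext K fun f => ?_
    funext p
    rw [← Matrix.mulVec_mulVec, Matrix.one_mulVec, mulVec_regR, mulVec_regR, mul_assoc, β.sq,
      mul_one]
  B_sq v := by
    refine mat_ext K fun f => ?_
    funext p
    rw [← Matrix.mulVec_mulVec, Matrix.one_mulVec, mulVec_regB, mulVec_regB, ← mul_assoc,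
      ← Int.cast_mul, sgn_mul_self, Int.cast_one, one_mul]
  anti v := by
    refine mat_ext K fun f => ?_
    funext p
    rw [← Matrix.mulVec_mulVec, Matrix.neg_mulVec, ← Matrix.mulVec_mulVec, mulVec_regR,
      mulVec_regB, Pi.neg_apply, mulVec_regB, mulVec_regR, β.b_g, if_pos rfl, sgn_not,
      Int.cast_neg, neg_mul]
  RR u v h := by
    refine mat_ext K fun f => ?_
    funext p
    rw [← Matrix.mulVec_mulVec, ← Matrix.mulVec_mulVec, mulVec_regR, mulVec_regR, mulVec_regR,
      mulVec_regR, mul_assoc, mul_assoc, β.comm u v h]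
  RB u v h := by
    refine mat_ext K fun f => ?_
    funext p
    rw [← Matrix.mulVec_mulVec, ← Matrix.mulVec_mulVec, mulVec_regR, mulVec_regB, mulVec_regB,
      mulVec_regR, β.b_g, if_neg h.ne]
  BB u v h := by
    refine mat_ext K fun f => ?_
    funext p
    rw [← Matrix.mulVec_mulVec, ← Matrix.mulVec_mulVec, mulVec_regB, mulVec_regB, mulVec_regB,
      mulVec_regB]
    ring

/-- functions with values in the functions on `P` are functions on the product -/
def regE {X : Type} : (Finset V → X → P → K) ≃ₗ[K] (Finset V → X × P → Unit → K) where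
  toFun f σ x _ := f σ x.1 x.2
  map_add' _ _ := rfl
  map_smul' _ _ := rfl
  invFun F σ x p := F σ (x, p) ()
  left_inv _ := rfl
  right_inv _ := rfl

theorem mem_SCh_reg [Fintype V] {X : Type} (Y : X → Finset V) (j : ℕ)
    (f : Finset V → X → P → K) :
    f ∈ SCh K G Y (reg K β).R triv j ↔
      regE K f ∈ SCh K G (prY Y P) (fun _ => (1 : Matrix Unit Unit K)) (prS triv β.g) j := by
  constructor
  · rintro ⟨h1, h2⟩
    refine ⟨fun σ x hne => ?_, fun σ v hv x => ?_⟩
    · refine h1 σ x.1 fun h0 => hne ?_
      funext u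
      exact congrFun h0 x.2
    · rw [Matrix.one_mulVec]
      funext u
      have h3 : f σ x.1 = -(regR K β v).mulVec (f σ x.1) := h2 σ v hv x.1
      have h4 := congrFun h3 (x.2 * β.g v)
      rw [Pi.neg_apply, mulVec_regR, mul_assoc, β.sq, mul_one] at h4
      exact h4
  · rintro ⟨h1, h2⟩
    refine ⟨fun σ x hne => ?_, fun σ v hv x => ?_⟩
    · obtain ⟨p, hp⟩ := Function.ne_iff.1 hne
      exact h1 σ (x, p) fun h0 => hp (congrFun h0 ())
    · show f σ x = -(regR K β v).mulVec (f σ x)
      funext p
      rw [Pi.neg_apply, mulVec_regR]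
      have h3 := h2 σ v hv (x, p * β.g v)
      rw [Matrix.one_mulVec] at h3
      have h4 : f σ x (p * β.g v * β.g v) = -f σ x (p * β.g v) := congrFun h3 ()
      rw [mul_assoc, β.sq, mul_one] at h4
      exact h4

theorem tdl_regE [Fintype V] {X : Type} (ν : V → ℕ) (f : Finset V → X → P → K) :
    regE K (tdl K ν f) = tdl K ν (regE K f) := by
  funext σ x u
  show (∑ v ∈ σᶜ, (sg ν v σ : K) • f (insert v σ) x.1) x.2 =
    (∑ v ∈ σᶜ, (sg ν v σ : K) • regE K f (insert v σ) x) u
  rw [Finset.sum_apply, Finset.sum_apply]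
  rfl

private theorem finrank_of {A B : Type} [AddCommGroup A] [Module K A] [AddCommGroup B]
    [Module K B] (e : A ≃ₗ[K] B) (S : Submodule K A) (T : Submodule K B)
    (h : ∀ f, f ∈ S ↔ e f ∈ T) : Module.finrank K S = Module.finrank K T := by
  have h1 : S.map (e : A →ₗ[K] B) = T := by
    ext x
    constructor
    · rintro ⟨y, hy, rfl⟩
      exact (h y).1 hy
    · intro hx
      refine ⟨e.symm x, (h _).2 ?_, e.apply_symm_apply x⟩
      rwa [e.apply_symm_apply]
  rw [← h1]
  exact (LinearEquiv.finrank_map_eq e S).symm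

/-- the twisted Betti numbers of the regular module -/
theorem bS_reg [Fintype V] {X : Type} (Y : X → Finset V) (ν : V → ℕ) (i : ℕ) :
    bS K G Y (reg K β).R triv ν i = bT K G (prY Y P) (prS triv β.g) ν i := by
  have hZ := finrank_of K (regE K (V := V) (X := X) (P := P)) (SZ K G Y (reg K β).R triv ν i)
    (SZ K G (prY Y P) (fun _ => (1 : Matrix Unit Unit K)) (prS triv β.g) ν i) fun f => by
      constructor
      · intro hf
        refine ⟨(mem_SCh_reg K β Y i f).1 hf.1, ?_⟩
        show tdl K ν (regE K f) = 0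
        rw [← tdl_regE, show tdl K ν f = 0 from hf.2, map_zero]
      · intro hf
        refine ⟨(mem_SCh_reg K β Y i f).2 hf.1, ?_⟩
        have h1 : tdl K ν (regE K f) = 0 := hf.2
        rw [← tdl_regE] at h1
        exact (regE K).map_eq_zero_iff.1 h1
  have hB := finrank_of K (regE K (V := V) (X := X) (P := P)) (SB K G Y (reg K β).R triv ν i)
    (SB K G (prY Y P) (fun _ => (1 : Matrix Unit Unit K)) (prS triv β.g) ν i) fun f => by
      constructor
      · rintro ⟨k, hk, rfl⟩
        exact ⟨regE K k, (mem_SCh_reg K β Y (i + 1) k).1 hk, (tdl_regE K ν k).symm⟩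
      · rintro ⟨k, hk, hk'⟩
        refine ⟨(regE K).symm k, (mem_SCh_reg K β Y (i + 1) _).2 ?_, ?_⟩
        · rw [LinearEquiv.apply_symm_apply]
          exact hk
        · apply (regE K).injective
          rw [tdl_regE, LinearEquiv.apply_symm_apply, hk']
  unfold bT bS
  rw [hZ, hB]

end

end Pool.Agent.H3.CUT0
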