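import Pool.Agent.H3.CUT0.Defs

/-!
# CUT in characteristic `≠ 2`: the algebra of the deformed complex
-/

set_option autoImplicit false
set_option linter.unusedSectionVars false

open Finset Matrix

namespace Pool.Agent.H3.CUT0

open Pool.Agent.H19.Cub Pool.Agent.H19.LG Pool.Agent.H4.Singer Pool.Agent.H85.Fold
  Pool.Agent.H85.Fold2

variable {V : Type} [DecidableEq V] [Fintype V] {G : SimpleGraph V} {K : Type} [Field K]
  {D : Type} [Fintype D] [DecidableEq D] (M : MB G K D) (c : V) (ν : V → ℕ)

theorem tdl_app {X : Type} (f : Finset V → X → D → K) (τ : Finset V) (x : X) :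
    tdl K ν f τ x = ∑ v ∈ τᶜ, (sg ν v τ : K) • f (insert v τ) x := rfl

theorem tdl_tdl {X : Type} (hν : Function.Injective ν) (f : Finset V → X → D → K) :
    tdl K ν (tdl K ν f) = 0 := by
  funext τ x d
  have h1 := congrFun (congrFun
    (dl_dl (F := K) ν hν (fun σ (x : X) => f σ x d)) τ) x
  rw [dl_apply] at h1
  have happ : ∀ (g : Finset V → X → D → K) (τ : Finset V), tdl K ν g τ x d =
      ∑ v ∈ τᶜ, (sg ν v τ : K) * g (insert v τ) x d := by
    intro g τ
    rw [tdl_app, Finset.sum_apply]
    exact Finset.sum_congr rfl fun v _ => rfl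
  rw [happ]
  rw [Pi.zero_apply, Pi.zero_apply, Pi.zero_apply]
  rw [Pi.zero_apply, Pi.zero_apply] at h1
  rw [← h1]
  refine Finset.sum_congr rfl fun v _ => ?_
  rw [happ, dl_apply]

theorem Lk_mem {f : Finset V → Bool → D → K} {τ : Finset V} (h : c ∈ τ) : Lk c ν f τ = 0 := by
  show (if c ∈ τ then (0 : D → K) else _) = 0
  rw [if_pos h]

theorem Lk_not {f : Finset V → Bool → D → K} {τ : Finset V} (h : c ∉ τ) :
    Lk c ν f τ = (sg ν c τ : K) • (f (insert c τ) true + f (insert c τ) false) := by
  show (if c ∈ τ then (0 : D → K) else _) = _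
  rw [if_neg h]

theorem sg_mul_self (v : V) (τ : Finset V) : (sg ν v τ : K) * (sg ν v τ : K) = 1 := by
  unfold sg
  push_cast
  rw [← pow_add, ← two_mul, pow_mul]
  simp

/-- the signs -/
theorem sg_swap (hν : Function.Injective ν) {v : V} {τ : Finset V} (hc : c ∉ τ) (hv : v ∉ τ)
    (hvc : v ≠ c) : (sg ν c τ : K) * (sg ν v (insert c τ) : K) =
      -((sg ν v τ : K) * (sg ν c (insert v τ) : K)) := by
  have hne : ν v ≠ ν c := fun h => hvc (hν h)
  have h1 : (sg ν v (insert c τ) : K) = (if ν c < ν v then -1 else 1) * (sg ν v τ : K) := by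
    unfold sg
    rw [Finset.filter_insert]
    split_ifs with h
    · rw [Finset.card_insert_of_notMem (fun h' => hc (Finset.mem_filter.1 h').1), pow_succ]
      push_cast
      ring
    · rw [one_mul]
  have h2 : (sg ν c (insert v τ) : K) = (if ν v < ν c then -1 else 1) * (sg ν c τ : K) := by
    unfold sg
    rw [Finset.filter_insert]
    split_ifs with h
    · rw [Finset.card_insert_of_notMem (fun h' => hv (Finset.mem_filter.1 h').1), pow_succ]
      push_cast
      ring
    · rw [one_mul]
  rw [h1, h2]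
  rcases lt_or_gt_of_ne hne with h | h
  · rw [if_neg (by omega), if_pos h]
    ring
  · rw [if_pos h, if_neg (by omega)]
    ring

/-- the component at the cone vertex anticommutes with the boundary -/
theorem Lk_tdl (hν : Function.Injective ν) (f : Finset V → Bool → D → K) (τ : Finset V) :
    Lk c ν (tdl K ν f) τ = -∑ v ∈ τᶜ, (sg ν v τ : K) • Lk c ν f (insert v τ) := by
  by_cases h : c ∈ τ
  · rw [Lk_mem c ν h, Finset.sum_eq_zero, neg_zero]
    intro v _
    rw [Lk_mem c ν (Finset.mem_insert_of_mem h), smul_zero]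
  · have hcc : c ∈ τᶜ := Finset.mem_compl.2 h
    rw [Lk_not c ν h, tdl_app, tdl_app, ← Finset.sum_add_distrib, Finset.smul_sum,
      ← Finset.add_sum_erase _ _ hcc, Lk_mem c ν (Finset.mem_insert_self c τ), smul_zero,
      zero_add, ← Finset.sum_neg_distrib, Finset.compl_insert]
    refine Finset.sum_congr rfl fun v hv => ?_
    have hvc : v ≠ c := Finset.ne_of_mem_erase hv
    have hvt : v ∉ τ := Finset.mem_compl.1 (Finset.mem_of_mem_erase hv)
    have hci : c ∉ insert v τ := by
      rw [Finset.mem_insert]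
      rintro (h1 | h1)
      · exact hvc h1.symm
      · exact h h1
    rw [Lk_not c ν hci, ← smul_add, smul_smul, smul_smul, sg_swap (K := K) c ν hν h hvt hvc,
      neg_smul, Finset.insert_comm]

/-- the boundary of a family which does not depend on the second argument up to a sign -/
theorem EE_app (f : Finset V → Bool → D → K) (τ : Finset V) (b : Bool) :
    EE M c ν f τ b = (if b then (1 : K) else -1) • (th M c).mulVec (Lk c ν f τ) := rfl

theorem tdl_EE (hν : Function.Injective ν) (f : Finset V → Bool → D → K) :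
    tdl K ν (EE M c ν f) = -EE M c ν (tdl K ν f) := by
  funext τ b
  rw [tdl_app, Pi.neg_apply, Pi.neg_apply, EE_app, Lk_tdl c ν hν, Matrix.mulVec_neg, smul_neg,
    neg_neg, Matrix.mulVec_sum, Finset.smul_sum]
  refine Finset.sum_congr rfl fun v _ => ?_
  rw [EE_app, Matrix.mulVec_smul, smul_comm]

theorem EE_EE (f : Finset V → Bool → D → K) : EE M c ν (EE M c ν f) = 0 := by
  funext τ b
  rw [EE_app]
  have h1 : Lk c ν (EE M c ν f) τ = 0 := by
    by_cases h : c ∈ τ
    · exact Lk_mem c ν h
    · rw [Lk_not c ν h, EE_app, EE_app, Lk_mem c ν (Finset.mem_insert_self c τ)]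
      simp
  rw [h1]
  simp

/-- the deformed boundary is a boundary -/
theorem dt_dt (hν : Function.Injective ν) (t : K) (f : Finset V → Bool → D → K) :
    dt M c ν t (dt M c ν t f) = 0 := by
  unfold dt
  rw [LinearMap.add_apply, LinearMap.add_apply, map_add, tdl_tdl ν hν, LinearMap.smul_apply,
    map_smul, tdl_EE M c ν hν, LinearMap.smul_apply, map_add, map_smul, EE_EE]
  simp

end Pool.Agent.H3.CUT0
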