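import Pool.Agent.H3.CUT0.Alg

/-!
# CUT in characteristic `≠ 2`: the maps on the chains
-/

set_option autoImplicit false
set_option linter.unusedSectionVars false

open Finset Matrix

namespace Pool.Agent.H3.CUT0

open Pool.Agent.H19.Cub Pool.Agent.H19.LG Pool.Agent.H4.Singer Pool.Agent.H85.Fold
  Pool.Agent.H85.Fold2

variable {V : Type} [DecidableEq V] [Fintype V] {G : SimpleGraph V} {K : Type} [Field K]
  {D : Type} [Fintype D] [DecidableEq D] (M : MB G K D) {U W : Finset V} {c : V} (ν : V → ℕ)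

/-- the boundary of a chain -/
theorem tdl_mem {X : Type} (Y : X → Finset V) (B : V → Matrix D D K) (s : V → X → X) {i : ℕ}
    {y : Finset V → X → D → K} (hy : y ∈ SCh K G Y B s (i + 1)) :
    tdl K ν y ∈ SCh K G Y B s i := by
  obtain ⟨hy1, hy2⟩ := hy
  refine ⟨?_, ?_⟩
  · intro τ x hne
    have h' : ∑ v ∈ τᶜ, (sg ν v τ : K) • y (insert v τ) x ≠ 0 := hne
    obtain ⟨w, hw, hw'⟩ := Finset.exists_ne_zero_of_sum_ne_zero h'
    have hne' : y (insert w τ) x ≠ 0 := by
      intro h0
      exact hw' (by rw [h0, smul_zero])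
    obtain ⟨h0, h1, h2⟩ := hy1 _ _ hne'
    refine ⟨(Finset.subset_insert _ _).trans h0,
      fun a ha b hb hab => h1 a (Finset.mem_insert_of_mem ha) b
      (Finset.mem_insert_of_mem hb) hab, ?_⟩
    rw [Finset.card_insert_of_notMem (Finset.mem_compl.mp hw)] at h2
    omega
  · intro τ v hv x
    show ∑ w ∈ τᶜ, (sg ν w τ : K) • y (insert w τ) (s v x) =
      -(B v).mulVec (∑ w ∈ τᶜ, (sg ν w τ : K) • y (insert w τ) x)
    rw [Matrix.mulVec_sum, ← Finset.sum_neg_distrib]
    refine Finset.sum_congr rfl fun w _ => ?_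
    rw [hy2 _ v (Finset.mem_insert_of_mem hv) x, Matrix.mulVec_smul, smul_neg]

/-- the chains with the cone vertex -/
abbrev C2 (M : MB G K D) (U W : Finset V) (c : V) (i : ℕ) :
    Submodule K (Finset V → Bool → D → K) := SCh K G (Y2 U W c) M.R triv i

/-- the chains of the union -/
abbrev C1 (h : IsCut G U W c) (M : MB G K D) (t : K) (i : ℕ) :
    Submodule K (Finset V → Unit → D → K) := SCh K G (Y1 U W) (bend h M t).R triv i

theorem Y2_sub {b : Bool} {σ : Finset V} (h : σ ⊆ Y2 U W c b) (hc : c ∉ σ) :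
    σ ⊆ (if b then U else W) := by
  intro v hv
  have h1 := h hv
  cases b
  · rw [Y2, if_neg (by simp), Finset.mem_insert] at h1
    rcases h1 with h1 | h1
    · exact absurd (h1 ▸ hv) hc
    · simpa using h1
  · rw [Y2, if_pos rfl, Finset.mem_insert] at h1
    rcases h1 with h1 | h1
    · exact absurd (h1 ▸ hv) hc
    · simpa using h1

theorem sub_Y2 {σ : Finset V} (hU : σ ⊆ U) (hW : σ ⊆ W) (b : Bool) : σ ⊆ Y2 U W c b := by
  cases b
  · exact hW.trans (Finset.subset_insert _ _)
  · exact hU.trans (Finset.subset_insert _ _)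

/-- the component at the cone vertex -/
theorem Lk_supp {i : ℕ} {f : Finset V → Bool → D → K} (hf : f ∈ C2 M U W c i) {τ : Finset V}
    (h : Lk c ν f τ ≠ 0) : c ∉ τ ∧ (∀ v ∈ τ, G.Adj c v) ∧ Cl G τ ∧ τ.card + 1 = i := by
  have hc : c ∉ τ := fun hc => h (Lk_mem c ν hc)
  rw [Lk_not c ν hc] at h
  have h1 : f (insert c τ) true ≠ 0 ∨ f (insert c τ) false ≠ 0 := by
    by_contra hcon
    push Not at hcon
    exact h (by rw [hcon.1, hcon.2, add_zero, smul_zero])
  have h2 : ∃ b, f (insert c τ) b ≠ 0 := by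
    rcases h1 with h1 | h1
    · exact ⟨_, h1⟩
    · exact ⟨_, h1⟩
  obtain ⟨b, hb⟩ := h2
  obtain ⟨-, h3, h4⟩ := hf.1 _ _ hb
  refine ⟨hc, fun v hv => ?_, fun a ha b hb hab => h3 a (Finset.mem_insert_of_mem ha) b
      (Finset.mem_insert_of_mem hb) hab, ?_⟩
  · exact h3 c (Finset.mem_insert_self _ _) v (Finset.mem_insert_of_mem hv)
      (fun h5 => hc (h5 ▸ hv))
  · rw [Finset.card_insert_of_notMem hc] at h4
    exact h4

theorem Lk_twist {i : ℕ} {f : Finset V → Bool → D → K} (hf : f ∈ C2 M U W c i) {τ : Finset V}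
    {v : V} (hv : v ∈ τ) : (M.R v).mulVec (Lk c ν f τ) = -Lk c ν f τ := by
  by_cases hc : c ∈ τ
  · rw [Lk_mem c ν hc, Matrix.mulVec_zero, neg_zero]
  · have h1 : ∀ b, (M.R v).mulVec (f (insert c τ) b) = -f (insert c τ) b := by
      intro b
      have h3 : f (insert c τ) b = -(M.R v).mulVec (f (insert c τ) b) :=
        hf.2 (insert c τ) v (Finset.mem_insert_of_mem hv) b
      rw [eq_neg_iff_add_eq_zero] at h3
      exact eq_neg_of_add_eq_zero_right h3
    rw [Lk_not c ν hc, Matrix.mulVec_smul, Matrix.mulVec_add, h1, h1, ← neg_add, smul_neg]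

theorem Lk_cone {i : ℕ} {f : Finset V → Bool → D → K} (hf : f ∈ C2 M U W c i) (τ : Finset V) :
    (M.R c).mulVec (Lk c ν f τ) = -Lk c ν f τ := by
  by_cases hc : c ∈ τ
  · rw [Lk_mem c ν hc, Matrix.mulVec_zero, neg_zero]
  · have h1 : ∀ b, (M.R c).mulVec (f (insert c τ) b) = -f (insert c τ) b := by
      intro b
      have h3 : f (insert c τ) b = -(M.R c).mulVec (f (insert c τ) b) :=
        hf.2 (insert c τ) c (Finset.mem_insert_self _ _) b
      rw [eq_neg_iff_add_eq_zero] at h3
      exact eq_neg_of_add_eq_zero_right h3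
    rw [Lk_not c ν hc, Matrix.mulVec_smul, Matrix.mulVec_add, h1, h1, ← neg_add, smul_neg]

theorem EE_mem (h : IsCut G U W c) {i : ℕ} {f : Finset V → Bool → D → K}
    (hf : f ∈ C2 M U W c (i + 1)) : EE M c ν f ∈ C2 M U W c i := by
  refine ⟨fun τ b hne => ?_, fun τ v hv b => ?_⟩
  · rw [EE_app] at hne
    have h1 : Lk c ν f τ ≠ 0 := by
      intro h0
      exact hne (by rw [h0, Matrix.mulVec_zero, smul_zero])
    obtain ⟨-, h2, h3, h4⟩ := Lk_supp M ν hf h1
    exact ⟨sub_Y2 (fun v hv => ((h.adj v).1 (h2 v hv)).1) (fun v hv => ((h.adj v).1 (h2 v hv)).2) b,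
      h3, by omega⟩
  · show EE M c ν f τ b = -(M.R v).mulVec (EE M c ν f τ b)
    rw [EE_app]
    by_cases h1 : Lk c ν f τ = 0
    · rw [h1]
      simp
    · obtain ⟨-, h2, -, -⟩ := Lk_supp M ν hf h1
      rw [Matrix.mulVec_smul, Matrix.mulVec_mulVec, th_comm_R M c (h2 v hv),
        ← Matrix.mulVec_mulVec, Lk_twist M ν hf hv, Matrix.mulVec_neg, smul_neg, neg_neg]

theorem dt_mem (h : IsCut G U W c) {i : ℕ} (t : K) {f : Finset V → Bool → D → K}
    (hf : f ∈ C2 M U W c (i + 1)) : dt M c ν t f ∈ C2 M U W c i :=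
  Submodule.add_mem _ (tdl_mem ν _ _ _ hf) (Submodule.smul_mem _ t (EE_mem M ν h hf))

theorem Ph_app (t : K) (f : Finset V → Bool → D → K) (τ : Finset V) (u : Unit) :
    Ph M c t f τ u = if c ∈ τ then 0 else f τ true + (gt M c t).mulVec (f τ false) := rfl

theorem bend_R_of (h : IsCut G U W c) (t : K) {v : V} (hv : v ∈ U) :
    (bend h M t).R v = M.R v := by
  show (if v ∈ W then cj M c t (M.R v) else M.R v) = M.R v
  split_ifs with h1
  · exact cj_of_comm M c (gt_comm_R M c ((h.adj v).2 ⟨hv, h1⟩) t)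
  · rfl

theorem bend_R_W (h : IsCut G U W c) (t : K) {v : V} (hv : v ∈ W) :
    (bend h M t).R v = cj M c t (M.R v) := by
  show (if v ∈ W then cj M c t (M.R v) else M.R v) = _
  rw [if_pos hv]

theorem Ph_mem (h : IsCut G U W c) {i : ℕ} (t : K) {f : Finset V → Bool → D → K}
    (hf : f ∈ C2 M U W c i) : Ph M c t f ∈ C1 h M t i := by
  refine ⟨fun τ u hne => ?_, fun τ v hv u => ?_⟩
  · rw [Ph_app] at hne
    by_cases hc : c ∈ τ
    · rw [if_pos hc] at hne
      exact absurd rfl hne
    · rw [if_neg hc] at hne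
      have h1 : f τ true ≠ 0 ∨ f τ false ≠ 0 := by
        by_contra hcon
        push Not at hcon
        exact hne (by rw [hcon.1, hcon.2, Matrix.mulVec_zero, add_zero])
      rcases h1 with h1 | h1
      · obtain ⟨h2, h3, h4⟩ := hf.1 _ _ h1
        have h5 := Y2_sub h2 hc
        rw [if_pos rfl] at h5
        exact ⟨h5.trans Finset.subset_union_left, h3, h4⟩
      · obtain ⟨h2, h3, h4⟩ := hf.1 _ _ h1
        have h5 := Y2_sub h2 hc
        rw [if_neg (by simp)] at h5
        exact ⟨h5.trans Finset.subset_union_right, h3, h4⟩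
  · show Ph M c t f τ u = -((bend h M t).R v).mulVec (Ph M c t f τ u)
    rw [Ph_app]
    by_cases hc : c ∈ τ
    · rw [if_pos hc]
      simp
    · rw [if_neg hc, Matrix.mulVec_add, neg_add]
      congr 1
      · by_cases h1 : f τ true = 0
        · rw [h1]
          simp
        · obtain ⟨h2, -, -⟩ := hf.1 _ _ h1
          have h5 := Y2_sub h2 hc
          rw [if_pos rfl] at h5
          rw [bend_R_of M h t (h5 hv)]
          exact hf.2 τ v hv true
      · by_cases h1 : f τ false = 0
        · rw [h1]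
          simp
        · obtain ⟨h2, -, -⟩ := hf.1 _ _ h1
          have h5 := Y2_sub h2 hc
          rw [if_neg (by simp)] at h5
          have h6 : f τ false = -(M.R v).mulVec (f τ false) := hf.2 τ v hv false
          rw [bend_R_W M h t (h5 hv), cj, Matrix.mulVec_mulVec, mul_assoc, gi_gt, mul_one,
            ← Matrix.mulVec_mulVec, ← Matrix.mulVec_neg, ← h6]

/-- the nilpotent matrix kills the components at the cone vertex -/
theorem NN_of_anti {x : D → K} (hx : (M.R c).mulVec x = -x) : (NN M c).mulVec x = 0 := by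
  unfold NN
  rw [← Matrix.mulVec_mulVec, Matrix.add_mulVec, Matrix.one_mulVec, hx, add_neg_cancel,
    Matrix.mulVec_zero]

theorem NN_th (h2 : (2 : K) ≠ 0) {x : D → K} (hx : (M.R c).mulVec x = -x) :
    (NN M c).mulVec ((th M c).mulVec x) = x := by
  have h1 : NN M c * th M c = (2 : K)⁻¹ • (1 - M.R c) := by
    unfold NN th
    rw [Matrix.mul_smul]
    congr 1
    rw [mul_assoc, add_mul, one_mul, M.anti, ← sub_eq_add_neg]
    rw [mul_sub, ← mul_assoc, M.B_sq, one_mul]
  rw [Matrix.mulVec_mulVec, h1, Matrix.smul_mulVec, Matrix.sub_mulVec, Matrix.one_mulVec, hx,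
    sub_neg_eq_add, ← two_smul K x, smul_smul, inv_mul_cancel₀ h2, one_smul]

/-- the map to the chains of the union is a chain map -/
theorem Ph_dt (h2 : (2 : K) ≠ 0) {t : K} (ht : t ≠ 0) {i : ℕ}
    {f : Finset V → Bool → D → K} (hf : f ∈ C2 M U W c i) :
    Ph M c t (dt M c ν t f) = tdl K ν (Ph M c t f) := by
  funext τ u
  rw [Ph_app, tdl_app]
  by_cases hc : c ∈ τ
  · rw [if_pos hc]
    refine (Finset.sum_eq_zero fun v _ => ?_).symm
    rw [Ph_app, if_pos (Finset.mem_insert_of_mem hc), smul_zero]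
  · rw [if_neg hc]
    have hcc : c ∈ τᶜ := Finset.mem_compl.2 hc
    obtain ⟨L, hL⟩ : ∃ L, L = Lk c ν f τ := ⟨_, rfl⟩
    obtain ⟨x, hx⟩ : ∃ x, x = (th M c).mulVec L := ⟨_, rfl⟩
    have hLc : (M.R c).mulVec L = -L := by
      rw [hL]
      exact Lk_cone M ν hf τ
    have hgx : (gt M c t).mulVec x = x + t⁻¹ • L := by
      rw [hx, gt, Matrix.add_mulVec, Matrix.one_mulVec, Matrix.smul_mulVec, NN_th M h2 hLc]
    have hd : ∀ b, dt M c ν t f τ b = ∑ v ∈ τᶜ, (sg ν v τ : K) • f (insert v τ) b +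
        t • ((if b then (1 : K) else -1) • x) := by
      intro b
      rw [hx, hL]
      rfl
    have hfc : (gt M c t).mulVec (f (insert c τ) false) = f (insert c τ) false := by
      have h3 : (M.R c).mulVec (f (insert c τ) false) = -f (insert c τ) false := by
        have h4 : f (insert c τ) false = -(M.R c).mulVec (f (insert c τ) false) :=
          hf.2 (insert c τ) c (Finset.mem_insert_self _ _) false
        rw [eq_neg_iff_add_eq_zero] at h4
        exact eq_neg_of_add_eq_zero_right h4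
      rw [gt, Matrix.add_mulVec, Matrix.one_mulVec, Matrix.smul_mulVec, NN_of_anti M h3,
        smul_zero, add_zero]
    rw [hd, hd, if_pos rfl, if_neg (by simp), one_smul, neg_smul, one_smul, smul_neg,
      Matrix.mulVec_add, Matrix.mulVec_neg, Matrix.mulVec_smul, hgx, Matrix.mulVec_sum]
    rw [← Finset.add_sum_erase _ _ hcc, ← Finset.add_sum_erase _ _ hcc,
      ← Finset.add_sum_erase _ (fun v => (sg ν v τ : K) • Ph M c t f (insert v τ) u) hcc]
    have h5 : Ph M c t f (insert c τ) u = 0 := by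
      rw [Ph_app, if_pos (Finset.mem_insert_self _ _)]
    have h6 : ∑ v ∈ τᶜ.erase c, (sg ν v τ : K) • Ph M c t f (insert v τ) u =
        ∑ v ∈ τᶜ.erase c, (sg ν v τ : K) • f (insert v τ) true +
          ∑ v ∈ τᶜ.erase c, (gt M c t).mulVec ((sg ν v τ : K) • f (insert v τ) false) := by
      rw [← Finset.sum_add_distrib]
      refine Finset.sum_congr rfl fun v hv => ?_
      have hvc : v ≠ c := Finset.ne_of_mem_erase hv
      have hci : c ∉ insert v τ := by
        rw [Finset.mem_insert]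
        rintro (h1 | h1)
        · exact hvc h1.symm
        · exact hc h1
      rw [Ph_app, if_neg hci, smul_add, Matrix.mulVec_smul]
    rw [h5, h6, smul_zero, zero_add, Matrix.mulVec_smul, hfc]
    have h7 : (sg ν c τ : K) • f (insert c τ) true + (sg ν c τ : K) • f (insert c τ) false = L := by
      rw [hL, Lk_not c ν hc, smul_add]
    have h8 : t • (x + t⁻¹ • L) = t • x + L := by
      rw [smul_add, smul_smul, mul_inv_cancel₀ ht, one_smul]
    rw [h8, ← h7]
    abel

end Pool.Agent.H3.CUT0
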