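import Pool.Agent.H19.LG.MDefs
import Pool.Agent.H19.LG.Betti

/-!
# CUT in characteristic `≠ 2`: the bent module and the deformed complex

`IsCut G U W c`: the label set is `U ∪ W ∪ {c}`, there are no edges between `U \ W` and `W \ U`, and `c` is
adjacent exactly to the elements of `U ∩ W`. `N = B_c (1 + R_c)`, `θ = B_c / 2`; `bend M t` is the module with
`R_v`, `B_v` conjugated by `g = 1 + t⁻¹ N` for `v ∈ W`; `dt t = ∂ + t E`, the deformed boundary on
`C (U ∪ c) ⊕ C (W ∪ c)`; `Ph t f = f₁ + g f₂` away from `c`.
-/

set_option autoImplicit false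
set_option linter.unusedSectionVars false

open Finset Matrix

namespace Pool.Agent.H3.CUT0

open Pool.Agent.H19.Cub Pool.Agent.H19.LG Pool.Agent.H4.Singer Pool.Agent.H85.Fold
  Pool.Agent.H85.Fold2

variable {V : Type} [DecidableEq V]

/-- the decomposition of the graph and the cone vertex -/
structure IsCut (G : SimpleGraph V) (U W : Finset V) (c : V) : Prop where
  cU : c ∉ U
  cW : c ∉ W
  all : ∀ v, v ≠ c → v ∈ U ∨ v ∈ W
  sep : ∀ u v, u ∈ U → v ∈ W → G.Adj u v → u ∈ W ∨ v ∈ U
  adj : ∀ v, G.Adj c v ↔ v ∈ U ∧ v ∈ W

section alg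

variable {G : SimpleGraph V} {K : Type} [Field K] {D : Type} [Fintype D] [DecidableEq D]
  (M : MB G K D) (c : V)

/-- the nilpotent matrix of the cone vertex -/
def NN : Matrix D D K := M.B c * (1 + M.R c)

/-- half the bit of the cone vertex -/
def th : Matrix D D K := (2 : K)⁻¹ • M.B c

theorem NN_sq : NN M c * NN M c = 0 := by
  have h1 : (1 + M.R c) * M.B c = M.B c * (1 - M.R c) := by
    rw [add_mul, one_mul, M.anti, mul_sub, mul_one]
    abel
  have h2 : (1 - M.R c) * (1 + M.R c) = 0 := by
    rw [sub_mul, mul_add, mul_add, M.R_sq, one_mul, mul_one, one_mul]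
    abel
  calc NN M c * NN M c = M.B c * ((1 + M.R c) * M.B c) * (1 + M.R c) := by
        unfold NN
        simp only [mul_assoc]
    _ = M.B c * M.B c * ((1 - M.R c) * (1 + M.R c)) := by
        rw [h1]
        simp only [mul_assoc]
    _ = 0 := by rw [h2, mul_zero]

theorem NN_comm_R {v : V} (h : G.Adj c v) : M.R v * NN M c = NN M c * M.R v := by
  unfold NN
  rw [← mul_assoc, M.RB v c h.symm, mul_assoc, mul_assoc]
  congr 1
  rw [mul_add, add_mul, mul_one, one_mul, M.RR v c h.symm]

theorem NN_comm_B {v : V} (h : G.Adj c v) : M.B v * NN M c = NN M c * M.B v := by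
  unfold NN
  rw [← mul_assoc, M.BB v c h.symm, mul_assoc, mul_assoc]
  congr 1
  rw [mul_add, add_mul, mul_one, one_mul, M.RB c v h]

theorem th_comm_R {v : V} (h : G.Adj c v) : M.R v * th M c = th M c * M.R v := by
  unfold th
  rw [Matrix.mul_smul, Matrix.smul_mul, M.RB v c h.symm]

/-- the bending matrix and its inverse -/
def gt (t : K) : Matrix D D K := 1 + t⁻¹ • NN M c

def gi (t : K) : Matrix D D K := 1 - t⁻¹ • NN M c

theorem gt_gi (t : K) : gt M c t * gi M c t = 1 := by
  unfold gt gi
  rw [mul_sub, mul_one, add_mul, one_mul, Matrix.smul_mul, Matrix.mul_smul, NN_sq]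
  simp

theorem gi_gt (t : K) : gi M c t * gt M c t = 1 := by
  unfold gt gi
  rw [mul_add, mul_one, sub_mul, one_mul, Matrix.smul_mul, Matrix.mul_smul, NN_sq]
  simp

theorem gt_comm_R {v : V} (h : G.Adj c v) (t : K) : gt M c t * M.R v = M.R v * gt M c t := by
  unfold gt
  rw [mul_add, add_mul, mul_one, one_mul, Matrix.smul_mul, Matrix.mul_smul, NN_comm_R M c h]

theorem gt_comm_B {v : V} (h : G.Adj c v) (t : K) : gt M c t * M.B v = M.B v * gt M c t := by
  unfold gt
  rw [mul_add, add_mul, mul_one, one_mul, Matrix.smul_mul, Matrix.mul_smul, NN_comm_B M c h]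

/-- conjugation by the bending matrix -/
def cj (t : K) (A : Matrix D D K) : Matrix D D K := gt M c t * A * gi M c t

theorem cj_mul (t : K) (A B : Matrix D D K) : cj M c t A * cj M c t B = cj M c t (A * B) := by
  unfold cj
  calc gt M c t * A * gi M c t * (gt M c t * B * gi M c t)
      = gt M c t * A * (gi M c t * gt M c t) * B * gi M c t := by simp only [mul_assoc]
    _ = _ := by rw [gi_gt, mul_one]; simp only [mul_assoc]

theorem cj_one (t : K) : cj M c t 1 = 1 := by
  unfold cj
  rw [mul_one, gt_gi]

theorem cj_neg (t : K) (A : Matrix D D K) : cj M c t (-A) = -cj M c t A := by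
  unfold cj
  rw [mul_neg, neg_mul]

theorem cj_of_comm {t : K} {A : Matrix D D K} (h : gt M c t * A = A * gt M c t) :
    cj M c t A = A := by
  unfold cj
  rw [h, mul_assoc, gt_gi, mul_one]

end alg

section mod

variable {G : SimpleGraph V} {U W : Finset V} {c : V} {K : Type} [Field K] {D : Type}
  [Fintype D] [DecidableEq D]

/-- a label in `W` which is adjacent to a label outside `W` is adjacent to the cone vertex -/
theorem IsCut.adj_of (h : IsCut G U W c) {u v : V} (hu : u ∈ W) (hv : v ∉ W) (huv : G.Adj u v) :
    G.Adj c u := by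
  by_cases hvc : v = c
  · rw [hvc] at huv
    exact huv.symm
  · rw [h.adj]
    refine ⟨?_, hu⟩
    have hvU : v ∈ U := (h.all v hvc).resolve_right hv
    rcases h.sep v u hvU hu huv.symm with h1 | h1
    · exact absurd h1 hv
    · exact h1

/-- the bent module -/
def bend (h : IsCut G U W c) (M : MB G K D) (t : K) : MB G K D where
  R v := if v ∈ W then cj M c t (M.R v) else M.R v
  B v := if v ∈ W then cj M c t (M.B v) else M.B v
  R_sq v := by
    by_cases hv : v ∈ W
    · simp only [if_pos hv]
      rw [cj_mul, M.R_sq, cj_one]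
    · simp only [if_neg hv]
      exact M.R_sq v
  B_sq v := by
    by_cases hv : v ∈ W
    · simp only [if_pos hv]
      rw [cj_mul, M.B_sq, cj_one]
    · simp only [if_neg hv]
      exact M.B_sq v
  anti v := by
    by_cases hv : v ∈ W
    · simp only [if_pos hv]
      rw [cj_mul, cj_mul, M.anti, cj_neg]
    · simp only [if_neg hv]
      exact M.anti v
  RR u v huv := by
    by_cases hu : u ∈ W
    · by_cases hv : v ∈ W
      · simp only [if_pos hu, if_pos hv]
        rw [cj_mul, cj_mul, M.RR u v huv]
      · simp only [if_pos hu, if_neg hv]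
        rw [cj_of_comm M c (gt_comm_R M c (h.adj_of hu hv huv) t), M.RR u v huv]
    · by_cases hv : v ∈ W
      · simp only [if_neg hu, if_pos hv]
        rw [cj_of_comm M c (gt_comm_R M c (h.adj_of hv hu huv.symm) t), M.RR u v huv]
      · simp only [if_neg hu, if_neg hv]
        exact M.RR u v huv
  RB u v huv := by
    by_cases hu : u ∈ W
    · by_cases hv : v ∈ W
      · simp only [if_pos hu, if_pos hv]
        rw [cj_mul, cj_mul, M.RB u v huv]
      · simp only [if_pos hu, if_neg hv]
        rw [cj_of_comm M c (gt_comm_R M c (h.adj_of hu hv huv) t), M.RB u v huv]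
    · by_cases hv : v ∈ W
      · simp only [if_neg hu, if_pos hv]
        rw [cj_of_comm M c (gt_comm_B M c (h.adj_of hv hu huv.symm) t), M.RB u v huv]
      · simp only [if_neg hu, if_neg hv]
        exact M.RB u v huv
  BB u v huv := by
    by_cases hu : u ∈ W
    · by_cases hv : v ∈ W
      · simp only [if_pos hu, if_pos hv]
        rw [cj_mul, cj_mul, M.BB u v huv]
      · simp only [if_pos hu, if_neg hv]
        rw [cj_of_comm M c (gt_comm_B M c (h.adj_of hu hv huv) t), M.BB u v huv]
    · by_cases hv : v ∈ W
      · simp only [if_neg hu, if_pos hv]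
        rw [cj_of_comm M c (gt_comm_B M c (h.adj_of hv hu huv.symm) t), M.BB u v huv]
      · simp only [if_neg hu, if_neg hv]
        exact M.BB u v huv

end mod

/-! ### The complexes -/

/-- the label sets of the two complexes with the cone vertex -/
def Y2 (U W : Finset V) (c : V) (b : Bool) : Finset V := if b then insert c U else insert c W

/-- the label set of the union -/
def Y1 (U W : Finset V) (_ : Unit) : Finset V := U ∪ W

section maps

variable [Fintype V] {G : SimpleGraph V} {K : Type} [Field K] {D : Type} [Fintype D]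
  [DecidableEq D] (M : MB G K D) (c : V) (ν : V → ℕ)

/-- the sum of the components at the cone vertex -/
def Lk : (Finset V → Bool → D → K) →ₗ[K] (Finset V → D → K) where
  toFun f τ := if c ∈ τ then 0 else
    (sg ν c τ : K) • (f (insert c τ) true + f (insert c τ) false)
  map_add' f g := by
    funext τ
    by_cases h : c ∈ τ
    · simp [h]
    · simp only [if_neg h, Pi.add_apply]
      rw [← smul_add]
      congr 1
      abel
  map_smul' a f := by
    funext τ
    by_cases h : c ∈ τ
    · simp [h]
    · simp only [if_neg h, Pi.smul_apply, RingHom.id_apply]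
      rw [← smul_add, smul_comm]

/-- the deformation of the boundary -/
def EE : (Finset V → Bool → D → K) →ₗ[K] (Finset V → Bool → D → K) where
  toFun f τ b := (if b then (1 : K) else -1) • (th M c).mulVec (Lk c ν f τ)
  map_add' f g := by
    funext τ b
    simp only [map_add, Pi.add_apply, Matrix.mulVec_add, smul_add]
  map_smul' a f := by
    funext τ b
    simp only [map_smul, Pi.smul_apply, RingHom.id_apply, Matrix.mulVec_smul]
    rw [smul_comm]

/-- the deformed boundary -/
def dt (t : K) : (Finset V → Bool → D → K) →ₗ[K] (Finset V → Bool → D → K) :=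
  tdl K ν + t • EE M c ν

/-- the map to the chains of the union -/
def Ph (t : K) : (Finset V → Bool → D → K) →ₗ[K] (Finset V → Unit → D → K) where
  toFun f τ _ := if c ∈ τ then 0 else f τ true + (gt M c t).mulVec (f τ false)
  map_add' f g := by
    funext τ u
    by_cases h : c ∈ τ
    · simp [h]
    · simp only [if_neg h, Pi.add_apply, Matrix.mulVec_add]
      abel
  map_smul' a f := by
    funext τ u
    by_cases h : c ∈ τ
    · simp [h]
    · simp only [if_neg h, Pi.smul_apply, RingHom.id_apply, Matrix.mulVec_smul, smul_add]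

end maps

end Pool.Agent.H3.CUT0
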