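import Pool.Agent.H3.CUT0.Chain

/-!
# CUT in characteristic `≠ 2`: the map is surjective on the cycles
-/

set_option autoImplicit false
set_option linter.unusedSectionVars false

open Finset Matrix

namespace Pool.Agent.H3.CUT0

open Pool.Agent.H19.Cub Pool.Agent.H19.LG Pool.Agent.H4.Singer Pool.Agent.H85.Fold
  Pool.Agent.H85.Fold2

variable {V : Type} [DecidableEq V] [Fintype V] {G : SimpleGraph V} {K : Type} [Field K]
  {D : Type} [Fintype D] [DecidableEq D] (M : MB G K D) {U W : Finset V} {c : V} (ν : V → ℕ)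

/-- the boundary of a family -/
def bb (p : Finset V → D → K) (τ : Finset V) : D → K :=
  ∑ v ∈ τᶜ, (sg ν v τ : K) • p (insert v τ)

theorem bb_bb (hν : Function.Injective ν) (p : Finset V → D → K) (τ : Finset V) :
    bb ν (bb ν p) τ = 0 :=
  congrFun (congrFun (tdl_tdl ν hν (fun σ (_ : Unit) => p σ)) τ) ()

/-- a family and its component at the cone vertex -/
def jn (c : V) (p a : Finset V → D → K) (σ : Finset V) : D → K :=
  if c ∈ σ then (sg ν c (σ.erase c) : K) • a (σ.erase c) else p σ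

theorem jn_not {p a : Finset V → D → K} {σ : Finset V} (h : c ∉ σ) : jn ν c p a σ = p σ := by
  unfold jn
  rw [if_neg h]

theorem jn_insert {p a : Finset V → D → K} {τ : Finset V} (h : c ∉ τ) :
    jn ν c p a (insert c τ) = (sg ν c τ : K) • a τ := by
  unfold jn
  rw [if_pos (Finset.mem_insert_self _ _), Finset.erase_insert h]

/-- the boundary away from the cone vertex -/
theorem bb_jn {p a : Finset V → D → K} (hp : ∀ σ, c ∈ σ → p σ = 0) {τ : Finset V} (h : c ∉ τ) :
    bb ν (jn ν c p a) τ = bb ν p τ + a τ := by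
  have hcc : c ∈ τᶜ := Finset.mem_compl.2 h
  unfold bb
  rw [← Finset.add_sum_erase _ _ hcc, ← Finset.add_sum_erase (τᶜ)
    (fun v => (sg ν v τ : K) • p (insert v τ)) hcc, jn_insert ν h, smul_smul, sg_mul_self,
    one_smul, hp _ (Finset.mem_insert_self _ _), smul_zero, zero_add, add_comm]
  congr 1
  refine Finset.sum_congr rfl fun v hv => ?_
  have hvc : v ≠ c := Finset.ne_of_mem_erase hv
  rw [jn_not]
  rw [Finset.mem_insert]
  rintro (h1 | h1)
  · exact hvc h1.symm
  · exact h h1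

/-- the boundary at the cone vertex -/
theorem bb_jn_cone (hν : Function.Injective ν) {p a : Finset V → D → K}
    (ha : ∀ σ, c ∈ σ → a σ = 0) {τ : Finset V} (h : c ∉ τ) :
    bb ν (jn ν c p a) (insert c τ) = -((sg ν c τ : K) • bb ν a τ) := by
  have hcc : c ∈ τᶜ := Finset.mem_compl.2 h
  unfold bb
  rw [Finset.smul_sum, ← Finset.add_sum_erase (τᶜ) _ hcc, ha _ (Finset.mem_insert_self _ _),
    smul_zero, smul_zero, zero_add, ← Finset.sum_neg_distrib, Finset.compl_insert]
  refine Finset.sum_congr rfl fun v hv => ?_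
  have hvc : v ≠ c := Finset.ne_of_mem_erase hv
  have hvt : v ∉ τ := Finset.mem_compl.1 (Finset.mem_of_mem_erase hv)
  have hci : c ∉ insert v τ := by
    rw [Finset.mem_insert]
    rintro (h1 | h1)
    · exact hvc h1.symm
    · exact h h1
  rw [Finset.insert_comm, jn_insert ν hci, smul_smul, smul_smul, ← neg_smul]
  congr 1
  have h1 := sg_swap (K := K) c ν hν h hvt hvc
  have h2 : (sg ν c τ : K) * (sg ν c τ : K) = 1 := sg_mul_self ν c τ
  have h3 : (sg ν c (insert v τ) : K) * (sg ν c (insert v τ) : K) = 1 :=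
    sg_mul_self ν c (insert v τ)
  linear_combination (sg ν c τ : K) * (sg ν c (insert v τ) : K) * h1 -
    (sg ν v (insert c τ) : K) * (sg ν c (insert v τ) : K) * h2 -
    (sg ν c τ : K) * (sg ν v τ : K) * h3

theorem mulVec_bb (A : Matrix D D K) (p : Finset V → D → K) (τ : Finset V) :
    bb ν (fun σ => A.mulVec (p σ)) τ = A.mulVec (bb ν p τ) := by
  unfold bb
  rw [Matrix.mulVec_sum]
  exact Finset.sum_congr rfl fun v _ => by rw [Matrix.mulVec_smul]

/-- a cycle of the union comes from a cycle of the deformed complex -/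
theorem Ph_surj (h : IsCut G U W c) (hν : Function.Injective ν) (h2 : (2 : K) ≠ 0) {t : K}
    (ht : t ≠ 0) {i : ℕ} {z : Finset V → Unit → D → K} (hz : z ∈ C1 h M t i)
    (hzc : tdl K ν z = 0) :
    ∃ f ∈ C2 M U W c i, dt M c ν t f = 0 ∧ Ph M c t f = z := by
  classical
  -- the parts of `z`
  obtain ⟨p, hp⟩ : ∃ p : Finset V → D → K, ∀ σ, p σ = if σ ⊆ U then z σ () else 0 :=
    ⟨_, fun _ => rfl⟩
  obtain ⟨q, hq⟩ : ∃ q : Finset V → D → K, ∀ σ, q σ =
    if σ ⊆ U then 0 else (gi M c t).mulVec (z σ ()) := ⟨_, fun _ => rfl⟩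
  have hzs : ∀ σ, z σ () ≠ 0 → σ ⊆ U ∪ W ∧ Cl G σ ∧ σ.card = i := fun σ hne => hz.1 σ () hne
  have hzc0 : ∀ σ, c ∈ σ → z σ () = 0 := by
    intro σ hc
    by_contra hne
    have h1 := (hzs σ hne).1 hc
    rw [Finset.mem_union] at h1
    rcases h1 with h1 | h1
    · exact h.cU h1
    · exact h.cW h1
  have hp0 : ∀ σ, c ∈ σ → p σ = 0 := by
    intro σ hc
    rw [hp, hzc0 σ hc, ite_self]
  have hq0 : ∀ σ, c ∈ σ → q σ = 0 := by
    intro σ hc
    rw [hq, hzc0 σ hc, Matrix.mulVec_zero, ite_self]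
  have hqs : ∀ σ, q σ ≠ 0 → σ ⊆ W ∧ Cl G σ ∧ σ.card = i := by
    intro σ hne
    rw [hq] at hne
    split_ifs at hne with h1
    · exact absurd rfl hne
    · have h3 : z σ () ≠ 0 := by
        intro h0
        exact hne (by rw [h0, Matrix.mulVec_zero])
      obtain ⟨h4, h5, h6⟩ := hzs σ h3
      refine ⟨?_, h5, h6⟩
      obtain ⟨w, hw, hwU⟩ := Finset.not_subset.1 h1
      have hwW : w ∈ W := (Finset.mem_union.1 (h4 hw)).resolve_left hwU
      intro v hv
      by_contra hvW
      have hvU : v ∈ U := (Finset.mem_union.1 (h4 hv)).resolve_right hvW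
      have hvw : v ≠ w := fun h7 => hvW (h7 ▸ hwW)
      rcases h.sep v w hvU hwW (h5 v hv w hw hvw) with h8 | h8
      · exact hvW h8
      · exact hwU h8
  have hps : ∀ σ, p σ ≠ 0 → σ ⊆ U ∧ Cl G σ ∧ σ.card = i := by
    intro σ hne
    rw [hp] at hne
    split_ifs at hne with h1
    · exact ⟨h1, (hzs σ hne).2⟩
    · exact absurd rfl hne
  -- the twisting conditions
  have hpt : ∀ σ, ∀ v ∈ σ, (M.R v).mulVec (p σ) = -p σ := by
    intro σ v hv
    by_cases hne : p σ = 0
    · rw [hne, Matrix.mulVec_zero, neg_zero]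
    · have h1 := (hps σ hne).1
      have h3 : z σ () = -((bend h M t).R v).mulVec (z σ ()) := hz.2 σ v hv ()
      rw [bend_R_of M h t (h1 hv)] at h3
      rw [hp, if_pos h1]
      rw [eq_neg_iff_add_eq_zero] at h3
      exact eq_neg_of_add_eq_zero_right h3
  have hqt : ∀ σ, ∀ v ∈ σ, (M.R v).mulVec (q σ) = -q σ := by
    intro σ v hv
    by_cases hne : q σ = 0
    · rw [hne, Matrix.mulVec_zero, neg_zero]
    · have h1 := (hqs σ hne).1
      have h3 : z σ () = -((bend h M t).R v).mulVec (z σ ()) := hz.2 σ v hv ()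
      rw [bend_R_W M h t (h1 hv)] at h3
      have h4 : q σ = (gi M c t).mulVec (z σ ()) := by
        rw [hq]
        split_ifs with h5
        · rw [hq, if_pos h5] at hne
          exact absurd rfl hne
        · rfl
      have h5 : (gi M c t).mulVec (z σ ()) = -(M.R v).mulVec ((gi M c t).mulVec (z σ ())) := by
        conv_lhs => rw [h3]
        rw [Matrix.mulVec_neg, cj, Matrix.mulVec_mulVec, Matrix.mulVec_mulVec, mul_assoc,
          ← mul_assoc (gi M c t), gi_gt, one_mul]
      rw [h4]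
      rw [eq_neg_iff_add_eq_zero] at h5
      exact eq_neg_of_add_eq_zero_right h5
  -- the common boundary
  obtain ⟨y, hy⟩ : ∃ y : Finset V → D → K, ∀ τ, y τ = bb ν p τ := ⟨_, fun _ => rfl⟩
  have hyq : ∀ τ, bb ν q τ = -(gi M c t).mulVec (y τ) := by
    intro τ
    have h1 : bb ν (fun σ => z σ ()) τ = 0 := congrFun (congrFun hzc τ) ()
    have h3 : bb ν (fun σ => (gi M c t).mulVec (z σ ())) τ =
        bb ν q τ + bb ν (fun σ => (gi M c t).mulVec (p σ)) τ := by
      unfold bb
      rw [← Finset.sum_add_distrib]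
      refine Finset.sum_congr rfl fun v _ => ?_
      rw [← smul_add]
      beta_reduce
      rw [hp, hq]
      split_ifs
      · rw [zero_add]
      · rw [Matrix.mulVec_zero, add_zero]
    rw [mulVec_bb, mulVec_bb, h1, Matrix.mulVec_zero, ← hy] at h3
    exact eq_neg_of_add_eq_zero_left h3.symm
  have hys : ∀ τ, y τ ≠ 0 → (τ ⊆ U ∧ τ ⊆ W) ∧ Cl G τ ∧ τ.card + 1 = i := by
    intro τ hne
    have h1 : bb ν p τ ≠ 0 := by rwa [← hy]
    have h3 : bb ν q τ ≠ 0 := by
      rw [hyq]
      intro h0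
      apply hne
      have h4 : (gt M c t).mulVec ((gi M c t).mulVec (y τ)) = 0 := by
        rw [neg_eq_zero.1 h0, Matrix.mulVec_zero]
      rwa [Matrix.mulVec_mulVec, gt_gi, Matrix.one_mulVec] at h4
    obtain ⟨v, hv, hv'⟩ := Finset.exists_ne_zero_of_sum_ne_zero h1
    obtain ⟨w, hw, hw'⟩ := Finset.exists_ne_zero_of_sum_ne_zero h3
    have h5 : p (insert v τ) ≠ 0 := fun h0 => hv' (by rw [h0, smul_zero])
    have h6 : q (insert w τ) ≠ 0 := fun h0 => hw' (by rw [h0, smul_zero])
    obtain ⟨h7, h8, h9⟩ := hps _ h5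
    obtain ⟨h10, -, -⟩ := hqs _ h6
    refine ⟨⟨(Finset.subset_insert _ _).trans h7, (Finset.subset_insert _ _).trans h10⟩,
      fun a ha b hb hab => h8 a (Finset.mem_insert_of_mem ha) b
      (Finset.mem_insert_of_mem hb) hab, ?_⟩
    rw [Finset.card_insert_of_notMem (Finset.mem_compl.mp hv)] at h9
    exact h9
  have hy0 : ∀ τ, c ∈ τ → y τ = 0 := by
    intro τ hc
    by_contra hne
    exact h.cU ((hys τ hne).1.1 hc)
  have hyt : ∀ τ, ∀ v ∈ τ, (M.R v).mulVec (y τ) = -y τ := by
    intro τ v hv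
    rw [hy]
    unfold bb
    rw [Matrix.mulVec_sum, ← Finset.sum_neg_distrib]
    refine Finset.sum_congr rfl fun w _ => ?_
    rw [Matrix.mulVec_smul, hpt _ v (Finset.mem_insert_of_mem hv), smul_neg]
  have hyb : ∀ τ, bb ν y τ = 0 := by
    intro τ
    have h1 : y = bb ν p := funext hy
    rw [h1]
    exact bb_bb ν hν p τ
  -- the matrices
  obtain ⟨A, hA⟩ : ∃ A : Matrix D D K, A = -((2 : K)⁻¹ • (1 - M.R c)) := ⟨_, rfl⟩
  obtain ⟨A', hA'⟩ : ∃ A' : Matrix D D K, A' = -(t⁻¹ • NN M c) - A := ⟨_, rfl⟩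
  have hRA : M.R c * A = -A := by
    rw [hA, mul_neg, Matrix.mul_smul, mul_sub, mul_one, M.R_sq, neg_neg, ← smul_neg, neg_sub]
  have hRN : M.R c * NN M c = -NN M c := by
    unfold NN
    rw [← mul_assoc, M.anti, neg_mul, mul_assoc, mul_add, mul_one, M.R_sq, add_comm]
  have hRA' : M.R c * A' = -A' := by
    rw [hA', mul_sub, mul_neg, Matrix.mul_smul, hRN, hRA, smul_neg]
    abel
  have hcomm : ∀ v, G.Adj c v → M.R v * A = A * M.R v := by
    intro v hv
    rw [hA, mul_neg, neg_mul, Matrix.mul_smul, Matrix.smul_mul, mul_sub, sub_mul, mul_one,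
      one_mul, M.RR v c hv.symm]
  have hcomm' : ∀ v, G.Adj c v → M.R v * A' = A' * M.R v := by
    intro v hv
    rw [hA', mul_sub, sub_mul, mul_neg, neg_mul, Matrix.mul_smul, Matrix.smul_mul, hcomm v hv,
      NN_comm_R M c hv]
  -- general facts on `B y`
  have hgen : ∀ (B : Matrix D D K) (r : Finset V → D → K),
      M.R c * B = -B → (∀ v, G.Adj c v → M.R v * B = B * M.R v) →
      ∀ (Z : Finset V) (_ : ∀ σ, r σ ≠ 0 → σ ⊆ Z ∧ Cl G σ ∧ σ.card = i)
        (_ : ∀ σ, ∀ v ∈ σ, (M.R v).mulVec (r σ) = -r σ) (_ : U ∩ W ⊆ Z),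
      (∀ σ, jn ν c r (fun τ => B.mulVec (y τ)) σ ≠ 0 → σ ⊆ insert c Z ∧ Cl G σ ∧ σ.card = i) ∧
      ∀ σ, ∀ v ∈ σ, jn ν c r (fun τ => B.mulVec (y τ)) σ =
        -(M.R v).mulVec (jn ν c r (fun τ => B.mulVec (y τ)) σ) := by
    intro B r hB1 hB2 Z hr1 hr2 hZ
    constructor
    · intro σ hne
      by_cases hc : c ∈ σ
      · have h1 : y (σ.erase c) ≠ 0 := by
          intro h0
          apply hne
          unfold jn
          rw [if_pos hc]
          beta_reduce
          rw [h0, Matrix.mulVec_zero, smul_zero]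
        obtain ⟨⟨h3, h4⟩, h5, h6⟩ := hys _ h1
        have h7 : insert c (σ.erase c) = σ := Finset.insert_erase hc
        rw [← h7]
        refine ⟨Finset.insert_subset_insert c ((Finset.subset_inter h3 h4).trans hZ), ?_, ?_⟩
        · intro a ha b hb hab
          rw [Finset.mem_insert] at ha hb
          rcases ha with ha | ha
          · rcases hb with hb | hb
            · exact absurd (ha.trans hb.symm) hab
            · rw [ha]
              exact (h.adj b).2 ⟨h3 hb, h4 hb⟩
          · rcases hb with hb | hb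
            · rw [hb]
              exact ((h.adj a).2 ⟨h3 ha, h4 ha⟩).symm
            · exact h5 a ha b hb hab
        · rw [Finset.card_insert_of_notMem (Finset.notMem_erase c σ)]
          exact h6
      · rw [jn_not ν hc] at hne
        obtain ⟨h3, h4⟩ := hr1 σ hne
        exact ⟨h3.trans (Finset.subset_insert _ _), h4⟩
    · intro σ v hv
      rw [eq_neg_iff_add_eq_zero, add_comm, ← eq_neg_iff_add_eq_zero]
      by_cases hc : c ∈ σ
      · unfold jn
        rw [if_pos hc, Matrix.mulVec_smul, ← smul_neg]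
        congr 1
        beta_reduce
        by_cases h1 : y (σ.erase c) = 0
        · rw [h1]
          simp
        · obtain ⟨⟨h3, h4⟩, -, -⟩ := hys _ h1
          rw [Matrix.mulVec_mulVec]
          by_cases hvc : v = c
          · rw [hvc, hB1, Matrix.neg_mulVec]
          · have hve : v ∈ σ.erase c := Finset.mem_erase.2 ⟨hvc, hv⟩
            rw [hB2 v ((h.adj v).2 ⟨h3 hve, h4 hve⟩), ← Matrix.mulVec_mulVec, hyt _ v hve,
              Matrix.mulVec_neg]
      · rw [jn_not ν hc]
        exact hr2 σ v hv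
  obtain ⟨f, hf⟩ : ∃ f : Finset V → Bool → D → K, ∀ σ b, f σ b =
      if b then jn ν c p (fun τ => A.mulVec (y τ)) σ else
        jn ν c q (fun τ => A'.mulVec (y τ)) σ := ⟨_, fun _ _ => rfl⟩
  have hf1 : ∀ σ, f σ true = jn ν c p (fun τ => A.mulVec (y τ)) σ := fun σ => by
    rw [hf, if_pos rfl]
  have hf2 : ∀ σ, f σ false = jn ν c q (fun τ => A'.mulVec (y τ)) σ := fun σ => by
    rw [hf, if_neg (by simp)]
  obtain ⟨hg1, hg2⟩ := hgen A p hRA hcomm U hps hpt Finset.inter_subset_left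
  obtain ⟨hg3, hg4⟩ := hgen A' q hRA' hcomm' W hqs hqt Finset.inter_subset_right
  have hfm : f ∈ C2 M U W c i := by
    refine ⟨fun σ b hne => ?_, fun σ v hv b => ?_⟩
    · cases b
      · rw [hf2] at hne
        exact hg3 σ hne
      · rw [hf1] at hne
        exact hg1 σ hne
    · cases b
      · show f σ false = -(M.R v).mulVec (f σ false)
        rw [hf2]
        exact hg4 σ v hv
      · show f σ true = -(M.R v).mulVec (f σ true)
        rw [hf1]
        exact hg2 σ v hv
  have hA0 : ∀ (B : Matrix D D K) (σ : Finset V), c ∈ σ → B.mulVec (y σ) = 0 := by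
    intro B σ hc
    rw [hy0 σ hc, Matrix.mulVec_zero]
  have hLk : ∀ τ, c ∉ τ → Lk c ν f τ = -(t⁻¹ • (NN M c).mulVec (y τ)) := by
    intro τ hc
    rw [Lk_not c ν hc, hf1, hf2, jn_insert ν hc, jn_insert ν hc, ← smul_add, smul_smul,
      sg_mul_self, one_smul, ← Matrix.add_mulVec, hA']
    rw [add_sub_cancel, Matrix.neg_mulVec, Matrix.smul_mulVec]
  have hthN : th M c * NN M c = (2 : K)⁻¹ • (1 + M.R c) := by
    unfold NN th
    rw [Matrix.smul_mul, ← mul_assoc, M.B_sq, one_mul]
  have hEE : ∀ τ b, c ∉ τ → t • EE M c ν f τ b =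
      (if b then (1 : K) else -1) • -((2 : K)⁻¹ • (1 + M.R c)).mulVec (y τ) := by
    intro τ b hc
    rw [EE_app, hLk τ hc, Matrix.mulVec_neg, Matrix.mulVec_smul, Matrix.mulVec_mulVec, hthN,
      smul_comm, smul_neg, smul_smul, mul_inv_cancel₀ ht, one_smul]
  refine ⟨f, hfm, ?_, ?_⟩
  · funext τ b
    show tdl K ν f τ b + t • EE M c ν f τ b = 0
    have hbb : tdl K ν f τ b = bb ν (fun σ => f σ b) τ := rfl
    rw [hbb]
    by_cases hc : c ∈ τ
    · have h1 : EE M c ν f τ b = 0 := by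
        rw [EE_app, Lk_mem c ν hc, Matrix.mulVec_zero, smul_zero]
      rw [h1, smul_zero, add_zero, ← Finset.insert_erase hc]
      cases b
      · have h3 : (fun σ => f σ false) = jn ν c q (fun τ => A'.mulVec (y τ)) := funext hf2
        rw [h3, bb_jn_cone ν hν (hA0 A') (Finset.notMem_erase c τ), mulVec_bb, hyb]
        simp
      · have h3 : (fun σ => f σ true) = jn ν c p (fun τ => A.mulVec (y τ)) := funext hf1
        rw [h3, bb_jn_cone ν hν (hA0 A) (Finset.notMem_erase c τ), mulVec_bb, hyb]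
        simp
    · rw [hEE τ b hc]
      have h22 : (2 : K)⁻¹ + (2 : K)⁻¹ = 1 := by
        rw [← two_mul, mul_inv_cancel₀ h2]
      have hA2 : (1 : Matrix D D K) + A - (2 : K)⁻¹ • (1 + M.R c) = 0 := by
        have h3 : (1 : Matrix D D K) = (2 : K)⁻¹ • 1 + (2 : K)⁻¹ • 1 := by
          rw [← add_smul, h22, one_smul]
        rw [hA, smul_sub, smul_add]
        nth_rewrite 1 [h3]
        abel
      cases b
      · have h3 : (fun σ => f σ false) = jn ν c q (fun τ => A'.mulVec (y τ)) := funext hf2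
        rw [h3, bb_jn ν hq0 hc, hyq, if_neg (by simp), neg_smul, one_smul, neg_neg]
        have h4 : -(gi M c t) + A' + (2 : K)⁻¹ • (1 + M.R c) = 0 := by
          rw [hA', gi]
          calc -(1 - t⁻¹ • NN M c) + (-(t⁻¹ • NN M c) - A) + (2 : K)⁻¹ • (1 + M.R c)
              = -(1 + A - (2 : K)⁻¹ • (1 + M.R c)) := by abel
            _ = 0 := by rw [hA2, neg_zero]
        rw [← Matrix.neg_mulVec, ← Matrix.add_mulVec, ← Matrix.add_mulVec, h4,
          Matrix.zero_mulVec]
      · have h3 : (fun σ => f σ true) = jn ν c p (fun τ => A.mulVec (y τ)) := funext hf1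
        rw [h3, bb_jn ν hp0 hc, ← hy, if_pos rfl, one_smul]
        have h4 : y τ = (1 : Matrix D D K).mulVec (y τ) := (Matrix.one_mulVec _).symm
        nth_rewrite 1 [h4]
        rw [← Matrix.neg_mulVec, ← Matrix.add_mulVec, ← Matrix.add_mulVec, ← sub_eq_add_neg, hA2,
          Matrix.zero_mulVec]
  · funext σ u
    rw [Ph_app]
    by_cases hc : c ∈ σ
    · rw [if_pos hc]
      exact (hzc0 σ hc).symm
    · rw [if_neg hc, hf1, hf2, jn_not ν hc, jn_not ν hc, hp, hq]
      split_ifs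
      · rw [Matrix.mulVec_zero, add_zero]
      · rw [zero_add, Matrix.mulVec_mulVec, gt_gi, Matrix.one_mulVec]

end Pool.Agent.H3.CUT0
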