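import Pool.Agent.H3.CUT0.Semi
import Pool.Agent.H3.CUT0.Surj

/-!
# CUT in characteristic `≠ 2`: the inequality of the dimensions
-/

set_option autoImplicit false
set_option linter.unusedSectionVars false

open Finset Matrix

namespace Pool.Agent.H3.CUT0

open Pool.Agent.H19.Cub Pool.Agent.H19.LG Pool.Agent.H4.Singer Pool.Agent.H85.Fold
  Pool.Agent.H85.Fold2

variable {V : Type} [DecidableEq V] [Fintype V] {G : SimpleGraph V} {K : Type} [Field K]
  {D : Type} [Fintype D] [DecidableEq D] (M : MB G K D) {U W : Finset V} {c : V} (ν : V → ℕ)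

theorem bS_bend_le (h : IsCut G U W c) (hν : Function.Injective ν) (h2 : (2 : K) ≠ 0) {t : K}
    (ht : t ≠ 0) (i : ℕ) :
    bS K G (Y1 U W) (bend h M t).R triv ν i + Module.finrank K (C2 M U W c (i + 1)) ≤
      Module.finrank K (C2 M U W c i ⊓ LinearMap.ker (dt M c ν t) :
        Submodule K (Finset V → Bool → D → K)) +
      Module.finrank K (C2 M U W c (i + 1) ⊓ LinearMap.ker (dt M c ν t) :
        Submodule K (Finset V → Bool → D → K)) := by
  have h1 := map_add_inf (dt M c ν t) (C2 M U W c (i + 1))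
  obtain ⟨Z, hZ⟩ : ∃ Z : Submodule K (Finset V → Bool → D → K),
      Z = C2 M U W c i ⊓ LinearMap.ker (dt M c ν t) := ⟨_, rfl⟩
  obtain ⟨B, hB⟩ : ∃ B : Submodule K (Finset V → Bool → D → K),
      B = (C2 M U W c (i + 1)).map (dt M c ν t) := ⟨_, rfl⟩
  have hBZ : B ≤ Z := by
    rw [hB, hZ]
    rintro _ ⟨f, hf, rfl⟩
    exact ⟨dt_mem M ν h t hf, LinearMap.mem_ker.2 (dt_dt M c ν hν t f)⟩
  have h3 := map_le (Ph M c t) hBZ
  have h4 : SZ K G (Y1 U W) (bend h M t).R triv ν i ≤ Z.map (Ph M c t) := by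
    rintro z ⟨hz1, hz2⟩
    obtain ⟨f, hf1, hf2, hf3⟩ := Ph_surj M ν h hν h2 ht hz1 hz2
    refine ⟨f, ?_, hf3⟩
    rw [hZ]
    exact ⟨hf1, hf2⟩
  have h5 : B.map (Ph M c t) ≤ SB K G (Y1 U W) (bend h M t).R triv ν i := by
    rw [hB]
    rintro _ ⟨_, ⟨f, hf, rfl⟩, rfl⟩
    refine ⟨Ph M c t f, Ph_mem M h t hf, ?_⟩
    exact (Ph_dt M ν h2 ht hf).symm
  have h6 := Submodule.finrank_mono h4
  have h7 := Submodule.finrank_mono h5
  have h8 := Submodule.finrank_mono hBZ
  rw [← hB] at h1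
  unfold bS
  rw [← hZ]
  omega

/-- For a large field there is a bent module whose homology is not larger than the sum of the homologies
of the two complexes with the cone vertex. -/
theorem cutM [Fintype K] (h : IsCut G U W c) (hν : Function.Injective ν) (h2 : (2 : K) ≠ 0)
    (i : ℕ) (hK : 2 * Module.finrank K (Finset V → Bool → D → K) + 1 < Fintype.card K) :
    ∃ t : K, bS K G (Y1 U W) (bend h M t).R triv ν i ≤ bS K G (Y2 U W c) M.R triv ν i := by
  classical
  obtain ⟨T, hT, hT'⟩ := semi_sub (tdl K ν) (EE M c ν) (C2 M U W c i)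
  obtain ⟨S, hS, hS'⟩ := semi_sub (tdl K ν) (EE M c ν) (C2 M U W c (i + 1))
  have h1 : (insert 0 (T ∪ S)).card < Fintype.card K := by
    have h3 := Finset.card_insert_le (0 : K) (T ∪ S)
    have h4 := Finset.card_union_le T S
    omega
  obtain ⟨t, ht⟩ : ∃ t : K, t ∉ insert 0 (T ∪ S) := by
    by_contra hcon
    push Not at hcon
    have h3 : insert 0 (T ∪ S) = Finset.univ := Finset.eq_univ_iff_forall.2 hcon
    rw [h3, Finset.card_univ] at h1
    exact lt_irrefl _ h1
  rw [Finset.mem_insert, Finset.mem_union] at ht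
  push Not at ht
  obtain ⟨ht0, ht1, ht2⟩ := ht
  refine ⟨t, ?_⟩
  have h3 := bS_bend_le M ν h hν h2 ht0 i
  have h4 := hT' t ht1
  have h5 := hS' t ht2
  have h6 := bS_add K G (Y2 U W c) M.R triv (isSpec_triv G _) ν hν i
  have h7 : dt M c ν t = tdl K ν + t • EE M c ν := rfl
  rw [h7] at h3
  have h8 : Module.finrank K (SZ K G (Y2 U W c) M.R triv ν i) =
      Module.finrank K (C2 M U W c i ⊓ LinearMap.ker (tdl K ν) :
        Submodule K (Finset V → Bool → D → K)) := rfl
  have h9 : Module.finrank K (SZ K G (Y2 U W c) M.R triv ν (i + 1)) =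
      Module.finrank K (C2 M U W c (i + 1) ⊓ LinearMap.ker (tdl K ν) :
        Submodule K (Finset V → Bool → D → K)) := rfl
  have h10 : Module.finrank K (SCh K G (Y2 U W c) M.R triv (i + 1)) =
      Module.finrank K (C2 M U W c (i + 1)) := rfl
  rw [h8, h9, h10] at h6
  omega

end Pool.Agent.H3.CUT0
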