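import Pool.Agent.H3.CUT0.Dim
import Pool.Agent.H3.CUT0.Reg
import Pool.Agent.H19.LG.RedM
import Pool.Agent.H71.KZ.FinH
import Pool.Agent.H71.KZ.InfH
import Pool.Agent.H19.LG.Prime
import Pool.Agent.H19.LG.Levels
import Pool.Agent.H19.LG.StarZero
import Pool.Agent.H19.Cub.Transf
import Pool.Agent.H4.Singer.LuckKer

/-!
# CUT in characteristic `0`: the theorem

If the complexes with the label sets `U ∪ c` and `W ∪ c` have no `ℓ²`-homology in degree `i`, then neither has the
complex with the label set `U ∪ W`, provided that no element of `U \ W` is adjacent to an element of `W \ U` and the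
neighbours of `c` are the elements of `U ∩ W`.
-/

set_option autoImplicit false
set_option linter.unusedSectionVars false

open Finset Filter Topology

namespace Pool.Agent.H3.CUT0

open Pool.Agent.H19.Cub Pool.Agent.H19.LG Pool.Agent.H4.Singer Pool.Agent.H85.Fold
  Pool.Agent.H85.Fold2 Pool.Agent.H4.Atiyah

variable {V : Type} [DecidableEq V] [Fintype V] {G : SimpleGraph V} {U W : Finset V} {c : V}

theorem finrank_chains (K : Type) [Field K] (P : Type) [Fintype P] :
    Module.finrank K (Finset V → Bool → P → K) =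
      Fintype.card (Finset V) * (2 * Fintype.card P) := by
  rw [Module.finrank_pi_fintype, Finset.sum_const, Module.finrank_pi_fintype, Finset.sum_const,
    Module.finrank_fintype_fun_eq_card, Finset.card_univ, Finset.card_univ, smul_eq_mul,
    smul_eq_mul, Fintype.card_bool]

/-- the Kazhdan direction -/
private theorem kazh {Ω : Type} [Fintype Ω] (Y : Ω → Finset V) (s : V → Ω → Ω)
    (hs : IsSpec G Y s) (ν : V → ℕ) (i : ℕ) (P : ℕ → Type) [∀ j, Group (P j)]
    [∀ j, Fintype (P j)] (π : ∀ j, RGrp G →* P j)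
    (hsep : ∀ w : RGrp G, w ≠ 1 → ∀ᶠ j in atTop, π j w ≠ 1)
    (h : ∀ f : Finset V → Ω × RGrp G → ℂ,
      IsHarmS G (prY Y (RGrp G)) (prS s (gen G)) ν i f → f = 0) (η : ℝ) (hη : 0 < η) :
    ∀ᶠ j in atTop, (bT ℂ G (prY Y (P j)) (prS s (fun v => π j (gen G v))) ν i : ℝ) ≤
      η * Fintype.card (P j) := by
  classical
  have h1 := Pool.Agent.H71.KZ.l2ker_of_harm G Y s hs ν i h
  have h2 := Pool.Agent.H71.KZ.vnDim_zero _ h1
  filter_upwards [(vnDim_approx π hsep (toC (HSA G Y s ν i))).1 η hη] with j hj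
  refine (Pool.Agent.H71.KZ.bT_le_rank G Y s hs ν i (P j) (π j)).trans ?_
  rw [h2, zero_add] at hj
  exact hj

/-- the von Neumann dimension of the harmonic chains of the union vanishes -/
theorem vn_cut [DecidableEq (RGrp G)] (h : IsCut G U W c) (ν : V → ℕ) (hν : Function.Injective ν) (i : ℕ)
    (hz : ∀ f : Finset V → Bool × RGrp G → ℂ,
      IsHarmS G (prY (Y2 U W c) (RGrp G)) (prS triv (gen G)) ν i f → f = 0) :
    vnDim (toC (HSA G (Y1 U W) triv ν i)) ≤ 0 := by
  classical
  have : Fact (Nat.Prime 2) := ⟨Nat.prime_two⟩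
  obtain ⟨P, grp, fin, π, β, -, hsep, hg, -⟩ := exists_levels_rep G (D := Unit) (ZMod 2)
    (fun _ => 1) (fun _ => one_mul 1) (fun _ _ _ => rfl)
  refine le_of_forall_pos_le_add fun (η : ℝ) hη => ?_
  rw [zero_add]
  obtain ⟨j, hj⟩ := (kazh (Y2 U W c) triv (isSpec_triv G _) ν i P π hsep hz η hη).exists
  have hgj : (fun v => π j (gen G v)) = (β j).g := funext fun v => (hg j v).symm
  rw [hgj] at hj
  obtain ⟨p₀, hp₀⟩ := bT_large G (prY (Y2 U W c) (P j)) (prS triv (β j).g) ν i
  obtain ⟨p, hp1, hp2⟩ := Nat.exists_infinite_primes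
    (p₀ + 2 * (Fintype.card (Finset V) * (2 * Fintype.card (P j))) + 3)
  have : Fact p.Prime := ⟨hp2⟩
  have h2 : (2 : ZMod p) ≠ 0 := by
    intro h0
    have h1 : ((2 : ℕ) : ZMod p) = 0 := by exact_mod_cast h0
    rw [ZMod.natCast_eq_zero_iff] at h1
    have := Nat.le_of_dvd (by norm_num) h1
    omega
  have hK : 2 * Module.finrank (ZMod p) (Finset V → Bool → P j → ZMod p) + 1 <
      Fintype.card (ZMod p) := by
    rw [finrank_chains, ZMod.card]
    omega
  obtain ⟨t, ht⟩ := cutM (reg (ZMod p) (β j)) ν h hν h2 i hK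
  rw [bS_reg] at ht
  have h3 := redM h2 (bend h (reg (ZMod p) (β j)) t) (Y1 U W) triv (isSpec_triv G _) ν hν i
  have h4 := hp₀ p (by omega)
  refine h3.trans ?_
  rw [div_le_iff₀ (by exact_mod_cast Fintype.card_pos)]
  refine le_trans ?_ hj
  exact_mod_cast ht.trans h4

/-- the one-vertex complex with the label set `U` -/
def ov (G : SimpleGraph V) (U : Finset V) : CubeComplex V Unit where
  graph := G
  lab _ := U
  nb _ _ := ()
  lab_nb _ _ h := h
  nb_nb _ _ _ := rfl
  lab_adj _ _ _ _ h _ := h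
  nb_comm _ _ _ _ _ _ := rfl

/-- the complex with two vertices -/
def tv (G : SimpleGraph V) (U W : Finset V) (c : V) : CubeComplex V Bool where
  graph := G
  lab := Y2 U W c
  nb _ x := x
  lab_nb _ _ h := h
  nb_nb _ _ _ := rfl
  lab_adj _ _ _ _ h _ := h
  nb_comm _ _ _ _ _ _ := rfl

/-- **CUT in characteristic `0`.** -/
theorem cut0 (h : IsCut G U W c) (i : ℕ) (hU : L2HomologyZero ((ov G (insert c U)).cover ()) i)
    (hW : L2HomologyZero ((ov G (insert c W)).cover ()) i) :
    L2HomologyZero ((ov G (U ∪ W)).cover ()) i := by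
  classical
  intro ν hν z hz hdz ε hε
  have h1 : ∀ f : Finset V → Bool × RGrp G → ℂ,
      IsHarmS G (prY (Y2 U W c) (RGrp G)) (prS triv (gen G)) ν i f → f = 0 := fun f hf =>
    star_zero (tv G U W c) i (fun x => by cases x; exacts [hW, hU]) ν hν f hf
  have h2 := harm_infS G (Y1 U W) triv (isSpec_triv G _) ν i
    (l2ker_trivial_of_vnDim _ (vn_cut h ν hν i h1))
  have hcs : (ov G (U ∪ W)).cs = triv := by
    funext v x
    exact Subsingleton.elim _ _
  have h3 : ∀ f : Finset V → (ov G (U ∪ W)).Cover () → ℂ,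
      IsHarmS G ((ov G (U ∪ W)).cover ()).lab ((ov G (U ∪ W)).cover ()).cs ν i f → f = 0 :=
    fun f hf => (ov G (U ∪ W)).harm_ext () ν i (fun F hF => h2 F (by rw [hcs] at hF; exact hF))
      f hf
  obtain ⟨y, hy, hye⟩ := hodgeS G ((ov G (U ∪ W)).cover ()).lab ((ov G (U ∪ W)).cover ()).cs
    ((ov G (U ∪ W)).cover ()).isSpec ν hν i h3 z
    ((((ov G (U ∪ W)).cover ()).isL2_iff i z).1 hz) hdz ε hε
  exact ⟨y, (((ov G (U ∪ W)).cover ()).isL2_iff (i + 1) y).2 hy, hye⟩

end Pool.Agent.H3.CUT0
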