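import Mathlib

/-!
# CUT in characteristic `≠ 2`: semicontinuity of kernels in a linear family, dimension lemmas
-/

set_option autoImplicit false

open Module

namespace Pool.Agent.H3.CUT0

variable {F : Type} [Field F]

/-- For all but at most `finrank E` values `t`: `dim ker (f + t g) ≤ dim ker f`. -/
theorem semi {E E' : Type} [AddCommGroup E] [Module F E] [FiniteDimensional F E]
    [AddCommGroup E'] [Module F E'] (f g : E →ₗ[F] E') :
    ∃ T : Finset F, T.card ≤ finrank F E ∧
      ∀ t, t ∉ T → finrank F (LinearMap.ker (f + t • g)) ≤ finrank F (LinearMap.ker f) := by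
  classical
  obtain ⟨U, hU⟩ := Submodule.exists_isCompl (LinearMap.ker f)
  have hinj : LinearMap.ker (f.domRestrict U) = ⊥ := by
    rw [LinearMap.ker_eq_bot']
    intro x hx
    have h1 : (x : E) ∈ LinearMap.ker f := hx
    have h2 : (x : E) ∈ LinearMap.ker f ⊓ U := ⟨h1, x.2⟩
    rw [hU.inf_eq_bot, Submodule.mem_bot] at h2
    exact Subtype.ext h2
  obtain ⟨p, hp⟩ := LinearMap.exists_leftInverse_of_injective _ hinj
  obtain ⟨A, hA⟩ : ∃ A : U →ₗ[F] U, A = p ∘ₗ g.domRestrict U := ⟨_, rfl⟩
  refine ⟨(A.charpoly.roots.toFinset).image fun μ => -μ⁻¹, ?_, fun t ht => ?_⟩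
  · refine Finset.card_image_le.trans ((Multiset.toFinset_card_le _).trans
      ((Polynomial.card_roots' _).trans ?_))
    rw [LinearMap.charpoly_natDegree]
    exact Submodule.finrank_le U
  · have h1 : LinearMap.ker (f + t • g) ⊓ U = ⊥ := by
      rw [Submodule.eq_bot_iff]
      rintro x ⟨hx, hxU⟩
      by_contra hne
      have h2 : f x + t • g x = 0 := hx
      obtain ⟨y, hy⟩ : ∃ y : U, (y : E) = x := ⟨⟨x, hxU⟩, rfl⟩
      have h3 : y + t • A y = 0 := by
        have h4 : p (f (y : E)) = y := LinearMap.congr_fun hp y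
        have h5 : A y = p (g (y : E)) := by
          rw [hA]
          rfl
        rw [h5]
        nth_rewrite 1 [← h4]
        rw [← map_smul, ← map_add, hy, h2, map_zero]
      have hy0 : y ≠ 0 := by
        intro h0
        rw [h0] at hy
        exact hne hy.symm
      have ht0 : t ≠ 0 := by
        intro h0
        rw [h0, zero_smul, add_zero] at h3
        exact hy0 h3
      have h4 : A y = (-t⁻¹) • y := by
        have h5 : t • A y = -y := eq_neg_of_add_eq_zero_right h3
        rw [neg_smul, ← smul_neg, ← h5, smul_smul, inv_mul_cancel₀ ht0, one_smul]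
      have h5 : Module.End.HasEigenvalue A (-t⁻¹) :=
        Module.End.hasEigenvalue_of_hasEigenvector ⟨Module.End.mem_eigenspace_iff.2 h4, hy0⟩
      have h6 : (LinearMap.charpoly A).IsRoot (-t⁻¹) := by
        rwa [Module.End.hasEigenvalue_iff_isRoot_charpoly] at h5
      apply ht
      rw [Finset.mem_image]
      refine ⟨-t⁻¹, ?_, by rw [inv_neg, inv_inv, neg_neg]⟩
      rw [Multiset.mem_toFinset, Polynomial.mem_roots (LinearMap.charpoly_monic A).ne_zero]
      exact h6
    have h2 := Submodule.finrank_sup_add_finrank_inf_eq (LinearMap.ker (f + t • g)) U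
    rw [h1, finrank_bot, add_zero] at h2
    have h3 := Submodule.finrank_le (LinearMap.ker (f + t • g) ⊔ U)
    have h4 := Submodule.finrank_add_eq_of_isCompl hU
    omega

/-- rank and nullity on a submodule -/
theorem map_add_inf {E E' : Type} [AddCommGroup E] [Module F E] [FiniteDimensional F E]
    [AddCommGroup E'] [Module F E'] (φ : E →ₗ[F] E') (S : Submodule F E) :
    finrank F (S.map φ) + finrank F (S ⊓ LinearMap.ker φ : Submodule F E) = finrank F S := by
  have h1 := LinearMap.finrank_range_add_finrank_ker (φ.domRestrict S)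
  have h2 : LinearMap.range (φ.domRestrict S) = S.map φ := LinearMap.range_domRestrict _ _
  have h3 : finrank F (LinearMap.ker (φ.domRestrict S)) =
      finrank F (S ⊓ LinearMap.ker φ : Submodule F E) := by
    have h4 : LinearMap.ker (φ.domRestrict S) = (LinearMap.ker φ).comap S.subtype := by
      ext z
      simp [LinearMap.mem_ker]
    rw [h4, ← Submodule.finrank_map_subtype_eq, Submodule.map_comap_subtype]
  rw [h2, h3] at h1
  exact h1

/-- semicontinuity on a submodule -/
theorem semi_sub {E E' : Type} [AddCommGroup E] [Module F E] [FiniteDimensional F E]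
    [AddCommGroup E'] [Module F E'] (f g : E →ₗ[F] E') (S : Submodule F E) :
    ∃ T : Finset F, T.card ≤ finrank F E ∧
      ∀ t, t ∉ T → finrank F (S ⊓ LinearMap.ker (f + t • g) : Submodule F E) ≤
        finrank F (S ⊓ LinearMap.ker f : Submodule F E) := by
  obtain ⟨T, hT, h⟩ := semi (f.domRestrict S) (g.domRestrict S)
  have h3 : ∀ φ : E →ₗ[F] E', finrank F (LinearMap.ker (φ.domRestrict S)) =
      finrank F (S ⊓ LinearMap.ker φ : Submodule F E) := by
    intro φ
    have h4 : LinearMap.ker (φ.domRestrict S) = (LinearMap.ker φ).comap S.subtype := by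
      ext z
      simp [LinearMap.mem_ker]
    rw [h4, ← Submodule.finrank_map_subtype_eq, Submodule.map_comap_subtype]
  refine ⟨T, hT.trans (Submodule.finrank_le S), fun t ht => ?_⟩
  rw [← h3, ← h3]
  exact h t ht

/-- the dimension of a quotient does not increase under a linear map -/
theorem map_le {E E' : Type} [AddCommGroup E] [Module F E] [FiniteDimensional F E]
    [AddCommGroup E'] [Module F E'] (φ : E →ₗ[F] E') {B Z : Submodule F E} (h : B ≤ Z) :
    finrank F (Z.map φ) + finrank F B ≤ finrank F Z + finrank F (B.map φ) := by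
  have h1 := map_add_inf φ Z
  have h2 := map_add_inf φ B
  have h3 : finrank F (B ⊓ LinearMap.ker φ : Submodule F E) ≤
      finrank F (Z ⊓ LinearMap.ker φ : Submodule F E) :=
    Submodule.finrank_mono (inf_le_inf_right _ h)
  omega

end Pool.Agent.H3.CUT0
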